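import Pool.Agent.Helper95.KN.Main

set_option autoImplicit false

/-! Almost all crossing choices of a knotoid shadow have a nontrivial normalized bracket
polynomial. -/

namespace Pool.Agent.Results.MP_79b4ff_gt.CrossingChoices

open Pool.Agent.Helper16.Knotoid Pool.Agent.GaussJones LaurentPolynomial

/-- Let `D` be a knotoid diagram (in `S²` or in any closed orientable surface) with `n > 0`
crossings, each interlaced with another one, and `t` twist regions. `D.switch e` is obtained by
changing the crossings `c` with `e c = true`. There is a set `S₀` of at least `t / 5` crossings such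
that, for every set `S ⊇ S₀` and every prescribed choice `e₀` outside `S`, a given Laurent
polynomial `P` is the normalized bracket of at most
`min (C(k, k/2) / 2 ^ k) (C ((1 + log t) / t) ^ (1 / 4)) 2 ^ |S|` of the `2 ^ |S|` diagrams obtained
by crossing changes in `S`; here `k` is the number of odd crossings in `S`, and `C` is absolute. -/
theorem result : ∃ C : ℝ, ∀ (n : ℕ) (D : GaussDiagram n), 0 < n → Reduced D.pos →
    ∃ S₀ : Finset (Fin n), twistRegions D.pos ≤ 5 * S₀.card ∧
      ∀ (S : Finset (Fin n)) (e₀ : Fin n → Bool) (P : LaurentPolynomial ℤ), S₀ ⊆ S →
        (Nat.card {e : Fin n → Bool // (∀ i ∉ S, e i = e₀ i) ∧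
          (D.switch e).normalizedBracket = P} : ℝ) ≤
          min (((D.odds ∩ S).card.choose ((D.odds ∩ S).card / 2) : ℝ) / 2 ^ (D.odds ∩ S).card)
            (C * ((1 + Real.log (twistRegions D.pos)) / twistRegions D.pos) ^ (1 / 4 : ℝ)) *
              2 ^ S.card := by
  obtain ⟨C, hC⟩ := GaussDiagram.almost_all
  refine ⟨C, fun n D hn hD => ?_⟩
  obtain ⟨S₀, h1, h2⟩ := hC n D hn hD
  refine ⟨S₀, h1, fun S e₀ P hS => ?_⟩
  rw [min_mul_of_nonneg _ _ (by positivity)]
  refine le_min ?_ (h2 S e₀ P hS)
  have h3 := D.card_le S e₀ P
  have h4 : (D.odds ∩ S).card ≤ S.card := Finset.card_le_card Finset.inter_subset_right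
  have h5 : (Nat.card {e : Fin n → Bool // (∀ i ∉ S, e i = e₀ i) ∧
      (D.switch e).normalizedBracket = P} : ℝ) ≤
      (((D.odds ∩ S).card.choose ((D.odds ∩ S).card / 2)) *
        2 ^ (S.card - (D.odds ∩ S).card) : ℕ) := by exact_mod_cast h3
  refine h5.trans (le_of_eq ?_)
  have h6 : (2 : ℝ) ^ S.card = 2 ^ (D.odds ∩ S).card * 2 ^ (S.card - (D.odds ∩ S).card) := by
    rw [← pow_add]
    congr 1
    omega
  rw [h6]
  push_cast
  field_simp

end Pool.Agent.Results.MP_79b4ff_gt.CrossingChoices

/-
Shelved hand-in (replaced by ThreeBraidoids), its claim file was:
Proves: There is an absolute constant C such that for every reduced knotoid diagram D with n > 0 crossings and t twist regions there is a set S0 of at least t/5 crossings with this property: for any set S of crossings containing S0, among the 2^|S| diagrams got from D by crossing changes in S (outside S the choice is fixed, arbitrarily), at most min(C(k,k/2)/2^k, C((1+log t)/t)^(1/4)) 2^|S| have any given normalized bracket f (e.g. f = 1), where k is the number of odd crossings in S.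
Definitions: GaussDiagram n: bijection pos from (crossing, over/under) to passages 0..2n-1, and signs. switch e: over/under exchanged and sign reversed at each c with e c. normalizedBracket f = (-A^3)^(-w) sum_s A^(#A-#B) (-A^2-A^-2)^(comps-1), comps: classes of edges for Join. OddCrossing: odd number of passages between its two (odds: the set). lo, hi, Interlaced: passages alternate; Reduced: each crossing is interlaced with another; Consecutive (cyclically), Bigon: crossings with passages consecutive in pairs; twistRegions: classes generated by bigons.
Relation: Partial answer to Q1: f detects nontriviality for almost all crossing choices of every reduced shadow as t or k grows; any height, S^2 not needed. I know no source.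

-/
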